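import Pool.Agent.Helper73.DC.St5

set_option autoImplicit false

/-! Project DC, module P7: extraction of the outcome. -/

namespace Pool.Agent.Helper95.DC

open Pool.Agent.Helper73.DC
open Finset
open scoped Classical

theorem lo_ctx (i r g : ℕ) (l p : ℕ → ℕ) (hi : i < 40) : lo i (ctx 40 r g l p) = l i := by
  unfold lo ctx
  rw [show 2 + i = i + 1 + 1 by omega]
  simp [scons, cat, hi]

theorem pa_ctx (j r g : ℕ) (l p : ℕ → ℕ) : pa j (ctx 40 r g l p) = p j := by
  unfold pa ctx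
  rw [show 42 + j = (40 + j) + 1 + 1 by omega]
  simp [scons, cat]

theorem gl_ctx (r g : ℕ) (l p : ℕ → ℕ) : gl (ctx 40 r g l p) = g := rfl

theorem sem_cons {α : Type} (w : List α) (p : ℕ → ℕ) (m : ℕ) (cb : ℕ → ℕ → ℕ × ℕ) (r : ℕ) (c : Cmd α)
    (cs : List (Cmd α)) (s : (ℕ → ℕ) × ℕ) :
    sem w p m cb r (sq (c :: cs)) s = sem w p m cb r (sq cs) (sem w p m cb r c s) := rfl

theorem sem_nil {α : Type} (w : List α) (p : ℕ → ℕ) (m : ℕ) (cb : ℕ → ℕ → ℕ × ℕ) (r : ℕ)
    (s : (ℕ → ℕ) × ℕ) :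
    sem w p m cb r (sq []) s = s := rfl

theorem sem_asg {α : Type} (w : List α) (p : ℕ → ℕ) (m : ℕ) (cb : ℕ → ℕ → ℕ × ℕ) (r i : ℕ) (F : VF α)
    (l : ℕ → ℕ) (g : ℕ) :
    sem w p m cb r (Cmd.asg i F) (l, g) = (Function.update l i (F w (ctx m r g l p) % p 0), g) := rfl

theorem sem_rep {α : Type} (w : List α) (p : ℕ → ℕ) (m : ℕ) (cb : ℕ → ℕ → ℕ × ℕ) (r : ℕ) (F : VF α)
    (c : Cmd α) (s : (ℕ → ℕ) × ℕ) :
    sem w p m cb r (Cmd.rep F c) s = (sem w p m cb r c)^[F w p] s := rfl

theorem dg_unique (B : ℕ) : ∀ (n x y : ℕ), x < B ^ n → y < B ^ n → (∀ j < n, dg B x j = dg B y j) → x = y := by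
  intro n
  induction n with
  | zero => intro x y hx hy _; simp at hx hy; omega
  | succ n ih =>
    intro x y hx hy h
    have h0 := h 0 (by omega)
    simp only [dg, pow_zero, Nat.div_one] at h0
    have h1 : x / B = y / B := by
      apply ih
      · apply Nat.div_lt_of_lt_mul
        rw [pow_succ] at hx
        linarith [mul_comm (B ^ n) B]
      · apply Nat.div_lt_of_lt_mul
        rw [pow_succ] at hy
        linarith [mul_comm (B ^ n) B]
      · intro j hj
        have := h (j + 1) (by omega)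
        simp only [dg] at this ⊢
        rw [Nat.div_div_eq_div_mul, Nat.div_div_eq_div_mul, mul_comm B (B ^ j), ← pow_succ]
        exact this
    calc x = B * (x / B) + x % B := (Nat.div_add_mod x B).symm
      _ = B * (y / B) + y % B := by rw [h0, h1]
      _ = y := Nat.div_add_mod y B

theorem dg_lt (B x i : ℕ) (hB : 0 < B) : dg B x i < B := Nat.mod_lt _ hB

theorem Rp_unique (p L g g' : ℕ) (hp : p.Prime) (r : RG p) (h : Rp p L g r) (h' : Rp p L g' r) : g = g' := by
  apply dg_unique p (3 * L) g g' h.1 h'.1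
  intro j hj
  have hL : 0 < L := by omega
  have hk : j / L < 3 := Nat.div_lt_of_lt_mul (by linarith)
  have hi : j % L < L := Nat.mod_lt _ hL
  have e1 := h.2 (j / L) hk (j % L) hi
  have e2 := h'.2 (j / L) hk (j % L) hi
  have e3 : j / L * L + j % L = j := Nat.div_add_mod' j L
  rw [e3] at e1 e2
  have e4 : ((dg p g j : ℕ) : ZMod p) = ((dg p g' j : ℕ) : ZMod p) := by rw [e1, e2]
  rw [ZMod.natCast_eq_natCast_iff'] at e4
  rwa [Nat.mod_eq_of_lt (dg_lt p g j hp.pos), Nat.mod_eq_of_lt (dg_lt p g' j hp.pos)] at e4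

theorem addB_addB {p : ℕ} (L o : ℕ) (f f' : ℕ → ZMod p) (r : RG p) (h : ∀ i, f i + f' i = 0) :
    addB L o f' (addB L o f r) = r := by
  funext k i
  unfold addB
  by_cases hc : k = o ∧ i < L
  · simp only [if_pos hc]
    rw [add_assoc, h i, add_zero]
  · simp only [if_neg hc]

/-- the value of variable 36 -/
theorem newbit (p L g g' V I : ℕ) (hp : p.Prime) (hI : I < L) (r : RG p) (h : Rp p L g r)
    (h' : Rp p L g' (addB L 0 (fun i => sgn p 0 * (bt V i : ZMod p)) r)) :
    (dg p g' I + p - dg p g I) % p = bt V I := by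
  have e1 := h.2 0 (by omega) I hI
  have e2 := h'.2 0 (by omega) I hI
  simp only [zero_mul, zero_add] at e1 e2
  have e3 : addB L 0 (fun i => sgn p 0 * (bt V i : ZMod p)) r 0 I = r 0 I + (bt V I : ZMod p) := by
    simp [addB, hI, sgn]
  rw [e3] at e2
  have hle : dg p g I ≤ dg p g' I + p := by
    have := dg_lt p g I hp.pos
    omega
  have e4 : ((dg p g' I + p - dg p g I : ℕ) : ZMod p) = ((bt V I : ℕ) : ZMod p) := by
    rw [Nat.cast_sub hle]
    push_cast
    rw [e1, e2]
    simp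
  rw [ZMod.natCast_eq_natCast_iff'] at e4
  rw [e4]
  apply Nat.mod_eq_of_lt
  have : bt V I < 2 := Nat.mod_lt _ (by norm_num)
  have := hp.two_le
  omega

theorem bit_step {α : Type} (hP6 : StP6) (cl : List α → ℕ → ℕ) (rs : List α → ℕ → ℕ → ℕ) (w : List α) (p f : ℕ → ℕ)
    (cb : ℕ → ℕ → ℕ × ℕ) (r g : ℕ)
    (l W : ℕ → ℕ) (hp : Prm cl rs w p) (ho : Orc p f cb) (hl : ∀ i, l i < p 0) (hg : g < p 1)
    (h4 : l 4 ≤ p 9) (h4' : l 4 + 1 < p 0) (hC : Circ cl rs w p f (l 5) (l 6) (l 3) (l 4 + 1) W)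
    (hI : l 10 < p 4) (h12 : l 12 = W (l 4 + 1) % 2 ^ (l 10)) :
    (sem w p 40 cb r (bitP cl rs) (l, g)).2 = g ∧
    (∀ i, (sem w p 40 cb r (bitP cl rs) (l, g)).1 i < p 0) ∧
    (∀ i, i < 10 ∨ 36 < i → (sem w p 40 cb r (bitP cl rs) (l, g)).1 i = l i) ∧
    (sem w p 40 cb r (bitP cl rs) (l, g)).1 10 = l 10 + 1 ∧
    (sem w p 40 cb r (bitP cl rs) (l, g)).1 12 = W (l 4 + 1) % 2 ^ (l 10 + 1) := by
  have hp0 : 0 < p 0 := lt_of_le_of_lt (Nat.zero_le _) (hl 0)
  have hpr := hp.hp
  have h6 := hp.hpM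
  have hL1 : p 4 < p 0 := by
    have h1 : p 4 < 2 ^ p 4 := Nat.lt_two_pow_self
    have h2 := hp.hQ
    have h3 := hp.hQM
    omega
  set V := W (l 4 + 1) with hV
  have hVlt : V < 2 ^ p 4 := by
    have := hC.2.1 (l 4 + 1) (by omega) le_rfl
    rw [hp.hQ] at this
    exact this
  have h2L : 2 ^ p 4 < p 0 := by
    have := hp.hQM
    rwa [hp.hQ] at this
  -- the registers
  set rr : RG (p 6) := fun k i => ((dg (p 6) g (k * p 4 + i) : ℕ) : ZMod (p 6)) with hrr
  have hR0 : Rp (p 6) (p 4) g rr := ⟨by rw [← hp.hG]; exact hg, fun k _ i _ => rfl⟩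
  -- unfold the program
  unfold bitP
  simp only [sem_cons, sem_nil]
  -- first two assignments
  rw [sem_asg w p 40 cb r 11 _ l g, sem_asg w p 40 cb r 35 _ _ g]
  rw [pa_ctx, gl_ctx, lo_ctx 10 _ _ _ _ (by norm_num)]
  have hd1 : dg (p 6) g (l 10) % p 0 = dg (p 6) g (l 10) :=
    Nat.mod_eq_of_lt (lt_trans (dg_lt _ _ _ hpr.pos) h6)
  rw [hd1, Nat.zero_mod]
  set l2 := Function.update (Function.update l 11 (dg (p 6) g (l 10))) 35 0 with hl2
  have l2i : ∀ i, i ≠ 11 → i ≠ 35 → l2 i = l i := by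
    intro i h1 h2
    rw [hl2, Function.update_of_ne h2, Function.update_of_ne h1]
  have l211 : l2 11 = dg (p 6) g (l 10) := by
    rw [hl2, Function.update_of_ne (by norm_num), Function.update_self]
  have l235 : l2 35 = 0 := by rw [hl2, Function.update_self]
  have l2lt : ∀ i, l2 i < p 0 := by
    intro i
    by_cases h1 : i = 35
    · subst h1; rw [l235]; exact hp0
    · by_cases h2 : i = 11
      · subst h2; rw [l211]; exact lt_trans (dg_lt _ _ _ hpr.pos) h6
      · rw [l2i i h2 h1]; exact hl i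
  have A := hP6 cl rs w p f cb r g l2 W rr hp ho l2lt hR0
    (by rw [l2i 4 (by norm_num) (by norm_num)]; exact h4)
    (by rw [l2i 4 (by norm_num) (by norm_num)]; exact h4')
    (by rw [l2i 4 (by norm_num) (by norm_num), l2i 5 (by norm_num) (by norm_num),
          l2i 6 (by norm_num) (by norm_num), l2i 3 (by norm_num) (by norm_num)]; exact hC)
  rw [l235, l2i 4 (by norm_num) (by norm_num), ← hV] at A
  obtain ⟨A1, A2, A3⟩ := A
  generalize sem w p 40 cb r (prunP cl rs) (l2, g) = s3 at A1 A2 A3 ⊢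
  obtain ⟨l3, g3⟩ := s3
  simp only at A1 A2 A3
  rw [sem_asg w p 40 cb r 36 _ l3 g3, sem_asg w p 40 cb r 35 _ _ g3]
  rw [pa_ctx, gl_ctx, lo_ctx 10 _ _ _ _ (by norm_num), lo_ctx 11 _ _ _ _ (by norm_num)]
  rw [A2 10 (by norm_num), A2 11 (by norm_num), l211, l2i 10 (by norm_num) (by norm_num),
    newbit (p 6) (p 4) g g3 V (l 10) hpr hI rr hR0 A3]
  have hb : bt V (l 10) < 2 := Nat.mod_lt _ (by norm_num)
  have h26 := hpr.two_le
  rw [Nat.mod_eq_of_lt (show bt V (l 10) < p 0 by omega), Nat.mod_eq_of_lt (show 1 < p 0 by omega)]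
  set l5 := Function.update (Function.update l3 36 (bt V (l 10))) 35 1 with hl5
  have l5i : ∀ i, i ≠ 36 → i ≠ 35 → l5 i = l3 i := by
    intro i h1 h2
    rw [hl5, Function.update_of_ne h2, Function.update_of_ne h1]
  have l5j : ∀ i, i < 13 ∨ 36 < i → l5 i = l2 i := by
    intro i hi
    rw [l5i i (by omega) (by omega), A2 i (by omega)]
  have l536 : l5 36 = bt V (l 10) := by
    rw [hl5, Function.update_of_ne (by norm_num), Function.update_self]
  have l535 : l5 35 = 1 := by rw [hl5, Function.update_self]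
  have l5lt : ∀ i, l5 i < p 0 := by
    intro i
    by_cases h1 : i = 35
    · subst h1; rw [l535]; omega
    · by_cases h2 : i = 36
      · subst h2; rw [l536]; omega
      · rw [l5i i h2 h1]; exact A1 i
  have B := hP6 cl rs w p f cb r g3 l5 W _ hp ho l5lt A3
    (by rw [l5j 4 (by norm_num), l2i 4 (by norm_num) (by norm_num)]; exact h4)
    (by rw [l5j 4 (by norm_num), l2i 4 (by norm_num) (by norm_num)]; exact h4')
    (by rw [l5j 4 (by norm_num), l5j 5 (by norm_num), l5j 6 (by norm_num), l5j 3 (by norm_num),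
          l2i 4 (by norm_num) (by norm_num), l2i 5 (by norm_num) (by norm_num),
          l2i 6 (by norm_num) (by norm_num), l2i 3 (by norm_num) (by norm_num)]; exact hC)
  rw [l535, l5j 4 (by norm_num), l2i 4 (by norm_num) (by norm_num), ← hV] at B
  obtain ⟨B1, B2, B3⟩ := B
  generalize sem w p 40 cb r (prunP cl rs) (l5, g3) = s6 at B1 B2 B3 ⊢
  obtain ⟨l6, g6⟩ := s6
  simp only at B1 B2 B3
  rw [addB_addB (p 4) 0 _ _ rr (by intro i; simp [sgn])] at B3
  have hg6 : g6 = g := Rp_unique (p 6) (p 4) g6 g hpr rr B3 hR0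
  rw [sem_asg w p 40 cb r 12 _ l6 g6, sem_asg w p 40 cb r 10 _ _ g6]
  rw [pa_ctx, lo_ctx 10 _ _ _ _ (by norm_num), lo_ctx 12 _ _ _ _ (by norm_num),
    lo_ctx 36 _ _ _ _ (by norm_num), lo_ctx 10 _ _ _ _ (by norm_num)]
  rw [Function.update_of_ne (show (10 : ℕ) ≠ 12 by norm_num)]
  rw [B2 12 (by norm_num), B2 36 (by norm_num), B2 10 (by norm_num), l536, l5j 12 (by norm_num),
    l5j 10 (by norm_num), l2i 12 (by norm_num) (by norm_num), l2i 10 (by norm_num) (by norm_num), h12]
  have hpw : pw (p 5) 2 (l 10) = 2 ^ l 10 := by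
    unfold pw
    rw [hp.hQ]
    apply min_eq_left
    exact le_trans (Nat.pow_le_pow_right (by norm_num) hI.le) (Nat.le_succ _)
  have hsum : V % 2 ^ l 10 + bt V (l 10) * pw (p 5) 2 (l 10) = V % 2 ^ (l 10 + 1) := by
    rw [hpw, Nat.mod_pow_succ, bt, mul_comm (2 ^ l 10)]
  rw [hsum]
  have hs2 : V % 2 ^ (l 10 + 1) < p 0 := lt_of_le_of_lt (Nat.mod_le _ _) (lt_trans hVlt h2L)
  rw [Nat.mod_eq_of_lt hs2, Nat.mod_eq_of_lt (show l 10 + 1 < p 0 by omega)]
  refine ⟨hg6, ?_, ?_, ?_, ?_⟩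
  · intro i
    by_cases h1 : i = 10
    · subst h1
      simp only [Function.update_self]
      omega
    · by_cases h2 : i = 12
      · subst h2
        simp only [Function.update_of_ne h1, Function.update_self]
        exact hs2
      · simp only [Function.update_of_ne h1, Function.update_of_ne h2]
        exact B1 i
  · intro i hi
    simp only [Function.update_of_ne (show i ≠ 10 by omega), Function.update_of_ne (show i ≠ 12 by omega)]
    rw [B2 i (by omega), l5j i (by omega), l2i i (by omega) (by omega)]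
  · simp only [Function.update_self]
  · simp only [Function.update_of_ne (show (12 : ℕ) ≠ 10 by norm_num), Function.update_self]

theorem mP7 : StP6 → StP7 := by
  intro hP6 α cl rs w p f cb r g l W hp ho hl hg h4 h4' hC
  have hp0 : 0 < p 0 := lt_of_le_of_lt (Nat.zero_le _) (hl 0)
  unfold outP
  simp only [sem_cons, sem_nil]
  rw [sem_asg w p 40 cb r 12 _ l g, sem_asg w p 40 cb r 10 _ _ g, sem_rep]
  simp only [Nat.zero_mod]
  set l0 := Function.update (Function.update l 12 0) 10 0 with hl0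
  have l0i : ∀ i, i ≠ 10 → i ≠ 12 → l0 i = l i := by
    intro i h1 h2
    rw [hl0, Function.update_of_ne h1, Function.update_of_ne h2]
  have l010 : l0 10 = 0 := by rw [hl0, Function.update_self]
  have l012 : l0 12 = 0 := by rw [hl0, Function.update_of_ne (by norm_num), Function.update_self]
  have key : ∀ n ≤ p 4,
      ((sem w p 40 cb r (bitP cl rs))^[n] (l0, g)).2 = g ∧
      (∀ i, ((sem w p 40 cb r (bitP cl rs))^[n] (l0, g)).1 i < p 0) ∧
      (∀ i, i < 10 ∨ 36 < i → ((sem w p 40 cb r (bitP cl rs))^[n] (l0, g)).1 i = l i) ∧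
      ((sem w p 40 cb r (bitP cl rs))^[n] (l0, g)).1 10 = n ∧
      ((sem w p 40 cb r (bitP cl rs))^[n] (l0, g)).1 12 = W (l 4 + 1) % 2 ^ n := by
    intro n
    induction n with
    | zero =>
      intro _
      refine ⟨rfl, ?_, ?_, ?_, ?_⟩
      · intro i
        show l0 i < p 0
        by_cases h1 : i = 10
        · subst h1; rw [l010]; exact hp0
        · by_cases h2 : i = 12
          · subst h2; rw [l012]; exact hp0
          · rw [l0i i h1 h2]; exact hl i
      · intro i hi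
        show l0 i = l i
        exact l0i i (by omega) (by omega)
      · exact l010
      · show l0 12 = _
        rw [l012, pow_zero, Nat.mod_one]
    | succ n ih =>
      intro hn
      obtain ⟨i1, i2, i3, i4, i5⟩ := ih (by omega)
      rw [Function.iterate_succ_apply']
      generalize (sem w p 40 cb r (bitP cl rs))^[n] (l0, g) = sn at i1 i2 i3 i4 i5 ⊢
      obtain ⟨ln, gn⟩ := sn
      simp only at i1 i2 i3 i4 i5
      subst i1
      have e4 : ln 4 = l 4 := i3 4 (by norm_num)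
      have e5 : ln 5 = l 5 := i3 5 (by norm_num)
      have e6 : ln 6 = l 6 := i3 6 (by norm_num)
      have e3 : ln 3 = l 3 := i3 3 (by norm_num)
      have S := bit_step hP6 cl rs w p f cb r gn ln W hp ho i2 hg (by rw [e4]; exact h4)
        (by rw [e4]; exact h4') (by rw [e4, e5, e6, e3]; exact hC) (by rw [i4]; omega)
        (by rw [i4, e4]; exact i5)
      obtain ⟨s1, s2, s3, s4, s5⟩ := S
      refine ⟨s1, s2, ?_, ?_, ?_⟩
      · intro i hi
        rw [s3 i hi, i3 i hi]
      · rw [s4, i4]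
      · rw [s5, i4, e4]
  obtain ⟨k1, k2, k3, k4, k5⟩ := key (p 4) le_rfl
  refine ⟨k1, k2, k3, ?_⟩
  rw [k5]
  apply Nat.mod_eq_of_lt
  have := hC.2.1 (l 4 + 1) (by omega) le_rfl
  rwa [hp.hQ] at this

end Pool.Agent.Helper95.DC
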